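import Pool.Agent.Helper65.CF.St
import Pool.Agent.Helper65.CB.M_Bfin

/-!
# Project CF, module BW: the bulk limit for the product measure
-/

set_option autoImplicit false

open scoped BigOperators ENNReal Topology
open Filter MeasureTheory
open Pool.Agent.Helper56.WP (Cfg perc openG Bx bd)
open Pool.LE Pool.NL Pool.CL Pool.CB

namespace Pool.CF

namespace BW

theorem opF_mono {d : ℕ} {E E' : Finset (Sym2 (Zd d))} (h : E ⊆ E') (ω : Cfg d) : opF E ω ⊆ opF E' ω := by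
  classical
  intro e he
  unfold opF at he ⊢
  rw [Finset.mem_filter] at he ⊢
  exact ⟨h he.1, he.2⟩

theorem Bx_eq (d n : ℕ) : (Bx d n : Finset (Fin d → ℤ)) = Bn d n := rfl

end BW

/-- **the bulk limit** -/
theorem hBW (hEnvC : Pool.CL.StEnvC) (hB : Pool.CB.StBbox) (hLawF : StLawF) (hConF : StConF)
    (hPcW : Pool.WF.StPcW) (hRR : Pool.CB.StRR) : StBW := by
  obtain ⟨d₀, h0⟩ := hEnvC
  obtain ⟨d₁, h1⟩ := hB
  refine ⟨max d₀ d₁, fun d hd p hp => ?_⟩
  obtain ⟨C₁, B, c₀, CL, E⟩ := h0 d (le_trans (le_max_left _ _) hd)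
  obtain ⟨a, ha, hab⟩ := h1 d (le_trans (le_max_right _ _) hd) C₁ B c₀ CL E
  have hd1 : 1 ≤ d := le_trans (by norm_num) E.env.hd
  have hpH : (p : ℝ) = pH d := by rw [hp]; exact hPcW d hd1 E.half
  have hprob : IsProbabilityMeasure (perc d p) := by
    unfold perc
    infer_instance
  refine ⟨a, ha, ?_⟩
  rw [tendstoInMeasure_iff_dist]
  intro ε hε
  obtain ⟨hup, M, hlow⟩ := hab (ε / 2) (by positivity)
  set ev : ℕ → ℕ → ℝ → Set (Cfg d) := fun n M t =>
    {ω | ∃ x ∈ Bn d n, t ≤ ms (sB n) (clu (Lam d n M) (opF (ES (Lam d n M)) ω) x)} with hev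
  have hlaw : ∀ n M t, perc d p (ev n M t) = ENNReal.ofReal (pr (ES (Lam d n M)) (pH d)
      (fun ω => ∃ x ∈ Bn d n, t ≤ ms (sB n) (clu (Lam d n M) ω x))) := fun n M t => by
    have h2 := (hLawF d (ES (Lam d n M)) p
      (fun ω => ∃ x ∈ Bn d n, t ≤ ms (sB n) (clu (Lam d n M) ω x))).1
    rw [hpH] at h2
    exact h2
  have hmeas : ∀ n M t, MeasurableSet (ev n M t) := fun n M t =>
    (hLawF d (ES (Lam d n M)) p
      (fun ω => ∃ x ∈ Bn d n, t ≤ ms (sB n) (clu (Lam d n M) ω x))).2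
  -- the upper events
  have hUmono : ∀ n : ℕ, 1 ≤ n → ∀ t : ℝ, Monotone (fun M => ev n M t) := by
    classical
    intro n hn t M M' hM ω hω
    obtain ⟨x, hx, hxt⟩ := hω
    refine ⟨x, hx, hxt.trans ?_⟩
    have hL := fun (M : ℕ) (x : Zd d) => (((hRR d n hd1 hn).2.2.2.2) M x).1
    rw [Bfin.ms_sB, Bfin.ms_sB]
    have hsub : (clu (Lam d n M) (opF (ES (Lam d n M)) ω) x).filter (fun y => y ∈ Bn d n) ⊆
        (clu (Lam d n M') (opF (ES (Lam d n M')) ω) x).filter (fun y => y ∈ Bn d n) := by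
      intro y hy
      rw [Finset.mem_filter] at hy ⊢
      refine ⟨?_, hy.2⟩
      have h2 := hy.1
      unfold clu at h2 ⊢
      rw [Finset.mem_filter] at h2 ⊢
      exact ⟨Bfin.Lam_mono hL hM h2.1,
        Bfin.con_mono (BW.opF_mono (Bfin.ES_mono (Bfin.Lam_mono hL hM)) ω) h2.2⟩
    exact_mod_cast Finset.card_le_card hsub
  have hU0 : Tendsto (fun n : ℕ => perc d p (⋃ M, ev n M ((a + ε / 2) * (n : ℝ) ^ 4 * Real.log n)))
      atTop (𝓝 0) := by
    rw [ENNReal.tendsto_nhds_zero]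
    intro δ hδ
    obtain ⟨δ', hδ', hδδ⟩ : ∃ δ' : ℝ, 0 < δ' ∧ ENNReal.ofReal δ' ≤ δ := by
      by_cases htop : δ = ⊤
      · exact ⟨1, one_pos, by rw [htop]; exact le_top⟩
      · exact ⟨δ.toReal, ENNReal.toReal_pos hδ.ne' htop, ENNReal.ofReal_toReal_le⟩
    obtain ⟨n₀, hn₀⟩ := hup δ' hδ'
    filter_upwards [eventually_ge_atTop n₀, eventually_ge_atTop 1] with n hn hn1
    rw [(hUmono n hn1 _).measure_iUnion]
    refine iSup_le fun M => ?_
    rw [hlaw]
    exact (ENNReal.ofReal_le_ofReal (hn₀ n hn M)).trans hδδ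
  have hL1 : Tendsto (fun n : ℕ => perc d p (ev n M ((a - ε / 2) * (n : ℝ) ^ 4 * Real.log n))ᶜ)
      atTop (𝓝 0) := by
    have h2 := (ENNReal.continuous_ofReal.tendsto 1).comp hlow
    rw [ENNReal.ofReal_one] at h2
    have h3 : Tendsto (fun n : ℕ => perc d p (ev n M ((a - ε / 2) * (n : ℝ) ^ 4 * Real.log n)))
        atTop (𝓝 1) := by
      refine h2.congr fun n => ?_
      rw [hlaw]
      rfl
    have h4 := ENNReal.Tendsto.sub (tendsto_const_nhds (x := (1 : ℝ≥0∞))) h3 (Or.inl ENNReal.one_ne_top)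
    rw [tsub_self] at h4
    refine h4.congr fun n => ?_
    rw [prob_compl_eq_one_sub (hmeas _ _ _)]
  have hsum := hU0.add hL1
  rw [add_zero] at hsum
  refine tendsto_of_tendsto_of_tendsto_of_le_of_le' tendsto_const_nhds hsum
    (Eventually.of_forall fun n => bot_le) ?_
  filter_upwards [eventually_ge_atTop 2] with n hn
  refine le_trans (measure_mono ?_) (measure_union_le _ _)
  intro ω hω
  have hn1 : 1 ≤ n := by omega
  have hn' : (2 : ℝ) ≤ n := by exact_mod_cast hn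
  have hlog : 0 < Real.log n := Real.log_pos (by linarith)
  have hN : 0 < (n : ℝ) ^ 4 * Real.log n := mul_pos (by positivity) hlog
  obtain ⟨-, hC2, M₀, hC3⟩ := hConF d n ω hn1
  by_contra hnot
  rw [Set.mem_union, not_or] at hnot
  obtain ⟨hnot1, hnot2⟩ := hnot
  rw [Set.mem_compl_iff, not_not] at hnot2
  obtain ⟨x, hx, hxl⟩ := hnot2
  have hx' : x ∈ Bx d n := hx
  have hlo : (a - ε / 2) * ((n : ℝ) ^ 4 * Real.log n) ≤ bulkMax n ω := by
    have h2 := hC2 x hx' M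
    have h3 : bulkCard n ω x ≤ bulkMax n ω := Finset.le_sup (f := bulkCard n ω) hx'
    have h4 : (bulkCard n ω x : ℝ) ≤ bulkMax n ω := by exact_mod_cast h3
    calc (a - ε / 2) * ((n : ℝ) ^ 4 * Real.log n) = (a - ε / 2) * (n : ℝ) ^ 4 * Real.log n := by ring
      _ ≤ _ := hxl.trans (h2.trans h4)
  have hhi : (bulkMax n ω : ℝ) < (a + ε / 2) * ((n : ℝ) ^ 4 * Real.log n) := by
    by_contra hcon
    rw [not_lt] at hcon
    apply hnot1
    have hne : (Bx d n).Nonempty := ⟨x, hx'⟩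
    obtain ⟨y, hy, hmy⟩ := Finset.exists_mem_eq_sup (Bx d n) hne (bulkCard n ω)
    rw [Set.mem_iUnion]
    refine ⟨M₀, y, hy, ?_⟩
    rw [hC3 M₀ le_rfl y hy]
    have h5 : bulkMax n ω = bulkCard n ω y := hmy
    rw [h5] at hcon
    calc (a + ε / 2) * (n : ℝ) ^ 4 * Real.log n = (a + ε / 2) * ((n : ℝ) ^ 4 * Real.log n) := by ring
      _ ≤ _ := hcon
  have h6 : a - ε / 2 ≤ (bulkMax n ω : ℝ) / ((n : ℝ) ^ 4 * Real.log n) := by
    rw [le_div_iff₀ hN]
    exact hlo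
  have h7 : (bulkMax n ω : ℝ) / ((n : ℝ) ^ 4 * Real.log n) < a + ε / 2 := by
    rw [div_lt_iff₀ hN]
    exact hhi
  have h8 : ε ≤ |(bulkMax n ω : ℝ) / ((n : ℝ) ^ 4 * Real.log n) - a| := hω
  have h9 : |(bulkMax n ω : ℝ) / ((n : ℝ) ^ 4 * Real.log n) - a| < ε := by
    rw [abs_lt]
    constructor <;> linarith
  linarith

end Pool.CF
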