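import Pool.Agent.Helper65.CF.St
import Pool.Agent.Helper84.LE.M_Box
import Pool.Agent.Helper84.LE.BGR

/-!
# Project CF, module ConF: connections in the configuration and in finite configurations
-/

set_option autoImplicit false

open scoped BigOperators ENNReal Topology
open Pool.LE Pool.NL Pool.CL Pool.CB Filter MeasureTheory
open Pool.Agent.Helper56.WP (Cfg perc openG Bx bd nn)

namespace Pool.CF

namespace ConF

variable {d : ℕ}

private theorem nn_iff (x y : Zd d) : nn x y ↔ y ∈ nb x := by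
  obtain ⟨-, -, b3, -⟩ := hBox d
  rw [b3]
  unfold nn
  constructor
  · intro h
    have hnn : ∀ i ∈ (Finset.univ : Finset (Fin d)), 0 ≤ |x i - y i| := fun i _ => abs_nonneg _
    obtain ⟨i, hi⟩ : ∃ i, |x i - y i| ≠ 0 := by
      by_contra hcon
      push Not at hcon
      rw [Finset.sum_eq_zero fun i _ => hcon i] at h
      exact absurd h (by norm_num)
    have h1 := Finset.add_sum_erase Finset.univ (fun i => |x i - y i|) (Finset.mem_univ i)
    have h2 : 0 ≤ ∑ j ∈ Finset.univ.erase i, |x j - y j| :=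
      Finset.sum_nonneg fun j _ => abs_nonneg _
    have h3 : 1 ≤ |x i - y i| := Int.one_le_abs (fun h0 => hi (by rw [h0, abs_zero]))
    have h4 : ∑ j ∈ Finset.univ.erase i, |x j - y j| = 0 := by omega
    have h5 : |x i - y i| = 1 := by omega
    have h6 : ∀ j, j ≠ i → y j = x j := by
      intro j hj
      have h7 := (Finset.sum_eq_zero_iff_of_nonneg (fun j _ => abs_nonneg _)).1 h4 j
        (Finset.mem_erase.2 ⟨hj, Finset.mem_univ j⟩)
      have h8 := abs_eq_zero.1 h7
      omega
    refine ⟨i, ?_⟩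
    rcases (abs_eq (by norm_num : (0 : ℤ) ≤ 1)).1 h5 with h7 | h7
    · right
      funext j
      by_cases hj : j = i
      · rw [hj, Pi.sub_apply, Pi.single_eq_same]
        omega
      · rw [Pi.sub_apply, Pi.single_eq_of_ne hj, h6 j hj]
        omega
    · left
      funext j
      by_cases hj : j = i
      · rw [hj, Pi.add_apply, Pi.single_eq_same]
        omega
      · rw [Pi.add_apply, Pi.single_eq_of_ne hj, h6 j hj]
        omega
  · rintro ⟨i, h | h⟩
    · rw [Finset.sum_eq_single i]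
      · rw [h, Pi.add_apply, Pi.single_eq_same]
        have h1 : x i - (x i + 1) = -1 := by omega
        rw [h1]
        rfl
      · intro j _ hj
        rw [h, Pi.add_apply, Pi.single_eq_of_ne hj, add_zero, sub_self, abs_zero]
      · intro h1
        exact absurd (Finset.mem_univ i) h1
    · rw [Finset.sum_eq_single i]
      · rw [h, Pi.sub_apply, Pi.single_eq_same]
        have h1 : x i - (x i - 1) = 1 := by omega
        rw [h1]
        rfl
      · intro j _ hj
        rw [h, Pi.sub_apply, Pi.single_eq_of_ne hj, sub_zero, sub_self, abs_zero]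
      · intro h1
        exact absurd (Finset.mem_univ i) h1

/-- the graph of the open edges of a finite set of points -/
private theorem gr_eq (S : Finset (Zd d)) (ω : Cfg d) :
    gr (opF (ES S) ω) = openG (S : Set (Zd d)) ω := by
  classical
  ext x y
  rw [gr_adj]
  unfold opF
  rw [Finset.mem_filter, mem_ES]
  constructor
  · rintro ⟨⟨⟨h1, h2, h3⟩, h4⟩, h5⟩
    exact ⟨h5, (nn_iff x y).2 h3, h1, h2, h4⟩
  · rintro ⟨h5, h3, h1, h2, h4⟩
    exact ⟨⟨⟨h1, h2, (nn_iff x y).1 h3⟩, h4⟩, h5⟩

private theorem con_iff (S : Finset (Zd d)) (ω : Cfg d) (x y : Zd d) :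
    con (opF (ES S) ω) x y ↔ (openG (S : Set (Zd d)) ω).Reachable x y := by
  unfold con
  rw [gr_eq]

private theorem openG_mono {A B : Set (Zd d)} (h : A ⊆ B) (ω : Cfg d) : openG A ω ≤ openG B ω := by
  intro x y hxy
  exact ⟨hxy.1, hxy.2.1, h hxy.2.2.1, h hxy.2.2.2.1, hxy.2.2.2.2⟩

private theorem mem_Lam (n M : ℕ) (x : Zd d) :
    x ∈ Lam d n M ↔ ∀ i, -((M * n : ℕ) : ℤ) ≤ x i ∧ x i < (((M + 1) * n : ℕ) : ℤ) := by
  unfold Lam
  rw [Fintype.mem_piFinset]
  exact forall_congr' fun i => Finset.mem_Ico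

private theorem Lam_mono {n M M' : ℕ} (h : M ≤ M') : Lam d n M ⊆ Lam d n M' := by
  intro x hx
  rw [mem_Lam] at hx ⊢
  intro i
  obtain ⟨h1, h2⟩ := hx i
  have h3 : ((M * n : ℕ) : ℤ) ≤ ((M' * n : ℕ) : ℤ) := by
    exact_mod_cast Nat.mul_le_mul_right n h
  have h4 : (((M + 1) * n : ℕ) : ℤ) ≤ (((M' + 1) * n : ℕ) : ℤ) := by
    exact_mod_cast Nat.mul_le_mul_right n (by omega : M + 1 ≤ M' + 1)
  constructor
  · omega
  · omega

private theorem exists_Lam {n : ℕ} (hn : 1 ≤ n) (x : Zd d) : ∃ M : ℕ, x ∈ Lam d n M := by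
  refine ⟨∑ i, (x i).natAbs, ?_⟩
  rw [mem_Lam]
  intro i
  have h1 : (x i).natAbs ≤ ∑ i, (x i).natAbs :=
    Finset.single_le_sum (f := fun i => (x i).natAbs) (fun _ _ => Nat.zero_le _)
      (Finset.mem_univ i)
  generalize (∑ i, (x i).natAbs) = M at h1 ⊢
  have h2 : M ≤ M * n := Nat.le_mul_of_pos_right M hn
  have h3 : M + 1 ≤ (M + 1) * n := Nat.le_mul_of_pos_right (M + 1) hn
  constructor
  · omega
  · omega

private theorem Bn_sub (n M : ℕ) : Bn d n ⊆ Lam d n M := by
  intro x hx
  unfold Bn at hx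
  rw [Fintype.mem_piFinset] at hx
  rw [mem_Lam]
  intro i
  have h := Finset.mem_Ico.1 (hx i)
  have h1 : n ≤ (M + 1) * n := Nat.le_mul_of_pos_left n (Nat.succ_pos M)
  constructor
  · omega
  · omega

/-- the mass of a finite set with respect to the source -/
private theorem ms_sB (n : ℕ) (C : Finset (Zd d)) :
    ms (sB n) C = ((C.filter (fun y => y ∈ Bn d n)).card : ℝ) := by
  classical
  unfold ms sB ind
  rw [Finset.card_filter]
  push_cast
  refine Finset.sum_congr rfl fun y _ => ?_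
  by_cases h : y ∈ Bn d n <;> simp [h]

private theorem ms_le (n M : ℕ) (ω : Cfg d) (x : Zd d) :
    ms (sB n) (clu (Lam d n M) (opF (ES (Lam d n M)) ω) x) ≤ bulkCard n ω x := by
  classical
  rw [ms_sB]
  unfold bulkCard
  rw [← Set.ncard_coe_finset]
  have h : (((clu (Lam d n M) (opF (ES (Lam d n M)) ω) x).filter (fun y => y ∈ Bn d n) :
      Finset (Zd d)) : Set (Zd d)) ⊆ {y | y ∈ Bx d n ∧ (openG Set.univ ω).Reachable x y} := by
    intro y hy
    rw [Finset.mem_coe, Finset.mem_filter] at hy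
    obtain ⟨h1, h2⟩ := hy
    unfold clu at h1
    rw [Finset.mem_filter] at h1
    exact ⟨h2, ((con_iff _ ω x y).1 h1.2).mono (openG_mono (Set.subset_univ _) ω)⟩
  exact_mod_cast Set.ncard_le_ncard h ((Bx d n).finite_toSet.subset fun y hy => hy.1)

private theorem reach {n : ℕ} (hn : 1 ≤ n) {ω : Cfg d} {x y : Zd d}
    (h : (openG Set.univ ω).Reachable x y) :
    ∃ M : ℕ, (openG (Lam d n M : Set (Zd d)) ω).Reachable x y := by
  obtain ⟨w⟩ := h
  induction w with
  | nil => exact ⟨0, SimpleGraph.Reachable.refl _⟩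
  | @cons a b c hadj _ ih =>
    obtain ⟨M1, h1⟩ := exists_Lam hn a
    obtain ⟨M2, h2⟩ := exists_Lam hn b
    obtain ⟨M3, h3⟩ := ih
    refine ⟨max M3 (max M1 M2), ?_⟩
    have ha : a ∈ Lam d n (max M3 (max M1 M2)) :=
      Lam_mono ((le_max_left _ _).trans (le_max_right _ _)) h1
    have hb : b ∈ Lam d n (max M3 (max M1 M2)) :=
      Lam_mono ((le_max_right _ _).trans (le_max_right _ _)) h2
    have h4 : (openG (Lam d n (max M3 (max M1 M2)) : Set (Zd d)) ω).Adj a b :=
      ⟨hadj.1, hadj.2.1, ha, hb, hadj.2.2.2.2⟩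
    exact h4.reachable.trans (h3.mono (openG_mono
      (Finset.coe_subset.2 (Lam_mono (le_max_left _ _))) ω))

end ConF

open ConF

/-- **ConF** -/
theorem hConF : StConF := by
  classical
  intro d n ω hn
  refine ⟨?_, ?_, ?_⟩
  · intro x _
    unfold zeroCard XB Xc clu
    rw [← Set.ncard_coe_finset]
    congr 1
    ext y
    rw [Finset.mem_coe, Finset.mem_filter]
    constructor
    · rintro ⟨h1, h2⟩
      exact ⟨h1, (con_iff (Bn d n) ω x y).2 h2⟩
    · rintro ⟨h1, h2⟩
      exact ⟨h1, (con_iff (Bn d n) ω x y).1 h2⟩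
  · intro x _ M
    exact ms_le n M ω x
  · have h1 : ∀ x y : Zd d, ∃ M : ℕ, (openG Set.univ ω).Reachable x y →
        (openG (Lam d n M : Set (Zd d)) ω).Reachable x y := by
      intro x y
      by_cases h : (openG Set.univ ω).Reachable x y
      · obtain ⟨M, hM⟩ := reach hn h
        exact ⟨M, fun _ => hM⟩
      · exact ⟨0, fun h' => absurd h' h⟩
    choose M hM using h1
    refine ⟨(Bx d n).sup fun x => (Bx d n).sup fun y => M x y, ?_⟩
    intro N hN x hx
    refine le_antisymm (ms_le n N ω x) ?_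
    rw [ms_sB]
    unfold bulkCard
    rw [← Set.ncard_coe_finset]
    have h : {y | y ∈ Bx d n ∧ (openG Set.univ ω).Reachable x y} ⊆
        (((clu (Lam d n N) (opF (ES (Lam d n N)) ω) x).filter
          (fun y => y ∈ Bn d n) : Finset (Zd d)) : Set (Zd d)) := by
      rintro y ⟨hy, hr⟩
      have hy' : y ∈ Bn d n := hy
      rw [Finset.mem_coe, Finset.mem_filter]
      refine ⟨?_, hy'⟩
      unfold clu
      rw [Finset.mem_filter]
      refine ⟨Bn_sub n N hy', (con_iff _ ω x y).2 ?_⟩
      have h2 : M x y ≤ N := by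
        have h3 : M x y ≤ (Bx d n).sup fun y => M x y := Finset.le_sup (f := fun y => M x y) hy
        have h4 : ((Bx d n).sup fun y => M x y) ≤
            (Bx d n).sup fun x => (Bx d n).sup fun y => M x y :=
          Finset.le_sup (f := fun x => (Bx d n).sup fun y => M x y) hx
        exact h3.trans (h4.trans hN)
      exact (hM x y hr).mono (openG_mono (Finset.coe_subset.2 (Lam_mono h2)) ω)
    exact_mod_cast Set.ncard_le_ncard h (Finset.finite_toSet _)

end Pool.CF
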