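import Pool.Agent.Helper65.CF.St
import Pool.Agent.Helper22.NL.M_Basic

/-! Project CF, module LawF: the law of the open edges of a finite set. -/

set_option autoImplicit false

open scoped BigOperators ENNReal Topology
open Pool.LE Pool.NL MeasureTheory
open Pool.Agent.Helper56.WP (Cfg perc)

namespace Pool.CF

namespace LawFM

theorem mem_op {d : ℕ} {E : Finset (Sym2 (Zd d))} {ω : Cfg d} {e : Sym2 (Zd d)} :
    e ∈ opF E ω ↔ e ∈ E ∧ ω e = true := by
  unfold opF
  rw [Finset.mem_filter]

theorem op_iff {d : ℕ} {E : Finset (Sym2 (Zd d))} {ω : Cfg d} {η : Finset (Sym2 (Zd d))} (hη : η ⊆ E) :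
    opF E ω = η ↔ ∀ e ∈ E, (ω e = true ↔ e ∈ η) := by
  constructor
  · rintro rfl e he
    rw [mem_op]
    exact ⟨fun h => ⟨he, h⟩, fun h => h.2⟩
  · intro h
    ext e
    rw [mem_op]
    exact ⟨fun ⟨h1, h2⟩ => (h e h1).1 h2, fun h1 => ⟨hη h1, (h e (hη h1)).2 h1⟩⟩

open Classical in
/-- the sets of the cylinder -/
noncomputable def cs {d : ℕ} (η : Finset (Sym2 (Zd d))) (e : Sym2 (Zd d)) : Set Bool :=
  if e ∈ η then {true} else {false}

theorem set_eq {d : ℕ} {E η : Finset (Sym2 (Zd d))} (hη : η ⊆ E) :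
    {ω : Cfg d | opF E ω = η} = Set.pi E (fun e => cs η e) := by
  ext ω
  rw [Set.mem_ofPred_eq, op_iff hη, Set.mem_pi]
  refine forall_congr' fun e => forall_congr' fun he => ?_
  unfold cs
  by_cases h : e ∈ η
  · rw [if_pos h]
    simp [h]
  · rw [if_neg h]
    simp [h]

theorem meas {d : ℕ} (η : Finset (Sym2 (Zd d))) (e : Sym2 (Zd d)) :
    MeasurableSet (cs η e) := MeasurableSet.of_discrete

theorem vol {d : ℕ} (p : unitInterval) (η : Finset (Sym2 (Zd d))) (e : Sym2 (Zd d))
    [Decidable (e ∈ η)] :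
    (ProbabilityTheory.bernoulliMeasure true false p) (cs η e) =
      ENNReal.ofReal (if e ∈ η then (p : ℝ) else 1 - p) := by
  unfold cs
  by_cases h : e ∈ η
  · rw [if_pos h, if_pos h, ProbabilityTheory.bernoulliMeasure_apply_of_mem_of_notMem p
      MeasurableSet.of_discrete (Set.mem_singleton _) (by simp)]
    rw [ENNReal.ofReal, Real.toNNReal_of_nonneg p.2.1]
    rfl
  · rw [if_neg h, if_neg h, ProbabilityTheory.bernoulliMeasure_apply_of_notMem_of_mem p
      MeasurableSet.of_discrete (by simp) (Set.mem_singleton _)]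
    rw [ENNReal.ofReal, Real.toNNReal_of_nonneg (by linarith [p.2.2])]
    rfl

theorem law_one {d : ℕ} (p : unitInterval) {E η : Finset (Sym2 (Zd d))} (hη : η ⊆ E) :
    perc d p {ω : Cfg d | opF E ω = η} = ENNReal.ofReal (wt E p η) := by
  classical
  rw [set_eq hη]
  unfold perc
  rw [Measure.infinitePi_pi _ (fun e _ => meas η e)]
  rw [Finset.prod_congr rfl (fun e _ => vol p η e)]
  rw [← ENNReal.ofReal_prod_of_nonneg]
  · congr 1
    unfold wt
    rw [Finset.prod_ite, Finset.prod_const, Finset.prod_const]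
    congr 2
    · congr 1
      rw [Finset.filter_mem_eq_inter, Finset.inter_eq_right.2 hη]
    · congr 1
      ext e
      simp
  · intro e _
    split_ifs
    · exact p.2.1
    · linarith [p.2.2]

end LawFM

open LawFM

theorem hLawF : StLawF := by
  intro d E p A
  classical
  have hset : {ω : Cfg d | A (opF E ω)} =
      ⋃ η ∈ E.powerset.filter A, {ω : Cfg d | opF E ω = η} := by
    ext ω
    simp only [Set.mem_ofPred_eq, Set.mem_iUnion, Finset.mem_filter, Finset.mem_powerset,
      exists_prop]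
    constructor
    · intro h
      refine ⟨opF E ω, ⟨?_, h⟩, rfl⟩
      exact Finset.filter_subset _ _
    · rintro ⟨η, ⟨_, hA⟩, rfl⟩
      exact hA
  have hm : ∀ η ∈ E.powerset.filter A, MeasurableSet {ω : Cfg d | opF E ω = η} := by
    intro η hη
    rw [set_eq (Finset.mem_powerset.1 (Finset.mem_filter.1 hη).1)]
    exact MeasurableSet.pi E.countable_toSet (fun q _ => meas η q)
  rw [hset]
  refine ⟨?_, Finset.measurableSet_biUnion _ hm⟩
  obtain ⟨-, -, -, -, -, -, hpr, -⟩ := Pool.NL.hBasic (Zd d) E p p.2.1 p.2.2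
  rw [← (hpr A).2.2.1, measure_biUnion_finset ?_ hm]
  · rw [Finset.sum_congr rfl (fun η hη =>
      law_one p (Finset.mem_powerset.1 (Finset.mem_filter.1 hη).1))]
    unfold Pr ExE
    rw [Finset.sum_filter]
    refine Finset.sum_congr rfl fun η _ => ?_
    by_cases hA : A η
    · simp [hA]
    · simp [hA]
  · intro η _ ζ _ hne
    rw [Function.onFun, Set.disjoint_left]
    intro ω h1 h2
    exact hne (h1.symm.trans h2)

end Pool.CF
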