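import Pool.Agent.Helper65.CF.St
import Pool.Agent.Helper65.CL.StE

/-! # Project CF (MP_65faa7), module ZW: the zero-boundary limit for the product measure -/

set_option autoImplicit false

open scoped BigOperators ENNReal Topology
open Pool.LE Pool.NL Filter MeasureTheory
open Pool.Agent.Helper56.WP (Cfg perc openG Bx bd)

namespace Pool.CF

theorem hZW (hEnvC : Pool.CL.StEnvC) (hZ : Pool.CL.StZbox) (hLawF : StLawF) (hConF : StConF)
    (hPcW : Pool.WF.StPcW) (hBasic : Pool.NL.StBasic) : StZW := by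
  obtain ⟨d₀, h0⟩ := hEnvC
  refine ⟨d₀, fun d hd p hp => ?_⟩
  obtain ⟨C₁, B, c₀, CL, E⟩ := h0 d hd
  have hd1 : 1 ≤ d := le_trans (by norm_num) E.env.hd
  have hpc : (p : ℝ) = pH d := by rw [hp, hPcW d hd1 E.half]
  obtain ⟨a, ha, hlim⟩ := hZ d C₁ B c₀ CL E
  have hp0 : 0 ≤ pH d := E.env.p0.le
  have hp1 : pH d ≤ 1 := E.env.p1.trans (by norm_num)
  refine ⟨a, ha, tendstoInMeasure_iff_dist.2 fun ε hε => ?_⟩
  obtain ⟨hu, hl⟩ := hlim (ε / 4) (by positivity)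
  have hprob : IsProbabilityMeasure (perc d p) := by
    unfold perc
    infer_instance
  -- the joint event
  set A₁ : ℕ → Finset (Sym2 (Zd d)) → Prop := fun n ω => ∃ x ∈ Bn d n,
    (a - ε / 4) * (n : ℝ) ^ 4 * Real.log n ≤ XB d n ω x with hA₁
  set A₂ : ℕ → Finset (Sym2 (Zd d)) → Prop := fun n ω => ∀ x ∈ Bn d n,
    (XB d n ω x : ℝ) ≤ (a + ε / 4) * (n : ℝ) ^ 4 * Real.log n with hA₂
  have hjoint : ∀ n, pB d n (pH d) (A₁ n) + pB d n (pH d) (A₂ n) - 1 ≤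
      pB d n (pH d) (fun ω => A₁ n ω ∧ A₂ n ω) := by
    intro n
    obtain ⟨hmono, hconst, hadd, hsub, _, _, _, _, _, _⟩ := hBasic (Zd d) (ES (Bn d n)) (pH d) hp0 hp1
    unfold pB pr
    have h1 : ex (ES (Bn d n)) (pH d) (fun _ => (1 : ℝ)) = 1 := hconst 1
    have := hmono (fun ω => (ind (A₁ n ω) + ind (A₂ n ω)) - 1) (fun ω => ind (A₁ n ω ∧ A₂ n ω))
      (by
        intro ω _
        unfold ind
        by_cases a : A₁ n ω <;> by_cases b : A₂ n ω <;> simp [a, b])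
    rw [hsub (fun ω => ind (A₁ n ω) + ind (A₂ n ω)) (fun _ => 1), hadd, h1] at this
    exact this
  have hjl : Tendsto (fun n : ℕ => pB d n (pH d) (A₁ n) + pB d n (pH d) (A₂ n) - 1) atTop (𝓝 1) := by
    have := (hl.add hu).sub_const 1
    simpa using this
  have h2 : Tendsto (fun n : ℕ => ENNReal.ofReal
      (pB d n (pH d) (A₁ n) + pB d n (pH d) (A₂ n) - 1)) atTop (𝓝 1) := by
    have := (ENNReal.continuous_ofReal.tendsto 1).comp hjl
    rw [ENNReal.ofReal_one] at this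
    exact this
  have h3 : Tendsto (fun n : ℕ => (1 : ℝ≥0∞) - ENNReal.ofReal
      (pB d n (pH d) (A₁ n) + pB d n (pH d) (A₂ n) - 1)) atTop (𝓝 0) := by
    have := ENNReal.Tendsto.sub (tendsto_const_nhds (x := (1 : ℝ≥0∞)) (f := atTop)) h2
      (Or.inl ENNReal.one_ne_top)
    rwa [tsub_self] at this
  refine tendsto_of_tendsto_of_tendsto_of_le_of_le' tendsto_const_nhds h3
    (Eventually.of_forall fun n => zero_le) ?_
  filter_upwards [eventually_ge_atTop 2] with n hn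
  obtain ⟨hlaw, hmeas⟩ := hLawF d (ES (Bn d n)) p (fun ω => A₁ n ω ∧ A₂ n ω)
  have hsub : {ω | ε ≤ dist ((zeroMax n ω : ℝ) / ((n : ℝ) ^ 4 * Real.log n)) a} ⊆
      {ω : Cfg d | A₁ n (opF (ES (Bn d n)) ω) ∧ A₂ n (opF (ES (Bn d n)) ω)}ᶜ := by
    intro ω hω hω'
    obtain ⟨⟨x, hx, hxl⟩, hup⟩ := hω'
    have hn2 : (2 : ℝ) ≤ n := by exact_mod_cast hn
    have hlog : 0 < Real.log n := Real.log_pos (by linarith)
    have hpos : 0 < (n : ℝ) ^ 4 * Real.log n := by positivity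
    have hcon := (hConF d n ω (by omega)).1
    have hlow : (a - ε / 4) * ((n : ℝ) ^ 4 * Real.log n) ≤ zeroMax n ω := by
      rw [← mul_assoc]
      refine hxl.trans ?_
      have h3 := hcon x hx
      rw [← h3]
      have : zeroCard n ω x ≤ zeroMax n ω := Finset.le_sup (f := zeroCard n ω) hx
      exact_mod_cast this
    have hhigh : (zeroMax n ω : ℝ) ≤ (a + ε / 4) * ((n : ℝ) ^ 4 * Real.log n) := by
      have hne : (Bx d n).Nonempty := ⟨x, hx⟩
      obtain ⟨y, hy, hmy⟩ := Finset.exists_mem_eq_sup (Bx d n) hne (zeroCard n ω)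
      have h3 := hcon y hy
      have h4 := hup y hy
      unfold zeroMax
      rw [hmy, h3, ← mul_assoc]
      exact h4
    have e1 : a - ε / 4 ≤ (zeroMax n ω : ℝ) / ((n : ℝ) ^ 4 * Real.log n) := (le_div_iff₀ hpos).2 hlow
    have e2 : (zeroMax n ω : ℝ) / ((n : ℝ) ^ 4 * Real.log n) ≤ a + ε / 4 := (div_le_iff₀ hpos).2 hhigh
    have e3 : ε ≤ dist ((zeroMax n ω : ℝ) / ((n : ℝ) ^ 4 * Real.log n)) a := hω
    rw [Real.dist_eq] at e3
    have e4 : |(zeroMax n ω : ℝ) / ((n : ℝ) ^ 4 * Real.log n) - a| ≤ ε / 4 := by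
      rw [abs_le]
      constructor <;> linarith
    linarith
  calc perc d p {ω | ε ≤ dist ((zeroMax n ω : ℝ) / ((n : ℝ) ^ 4 * Real.log n)) a}
      ≤ perc d p {ω : Cfg d | A₁ n (opF (ES (Bn d n)) ω) ∧ A₂ n (opF (ES (Bn d n)) ω)}ᶜ :=
        measure_mono hsub
    _ = 1 - perc d p {ω : Cfg d | A₁ n (opF (ES (Bn d n)) ω) ∧ A₂ n (opF (ES (Bn d n)) ω)} :=
        prob_compl_eq_one_sub hmeas
    _ = 1 - ENNReal.ofReal (pB d n (pH d) (fun ω => A₁ n ω ∧ A₂ n ω)) := by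
        rw [hlaw, hpc]
        rfl
    _ ≤ 1 - ENNReal.ofReal (pB d n (pH d) (A₁ n) + pB d n (pH d) (A₂ n) - 1) :=
        tsub_le_tsub_left (ENNReal.ofReal_le_ofReal (hjoint n)) 1

end Pool.CF
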