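import Pool.Agent.Helper65.CL.Fin
import Pool.Agent.Helper65.CB.All
import Pool.Agent.Helper65.CF.M_LawF
import Pool.Agent.Helper65.CF.M_ConF
import Pool.Agent.Helper65.CF.M_ZW
import Pool.Agent.Helper65.CF.M_BW
import Pool.Agent.Helper22.CM.AllS
import Pool.Agent.Helper69.SW.All
import Pool.Agent.Helper26.KD.Out

/-! # Project CF (MP_65faa7): the limits of the largest zero-boundary and bulk clusters -/

set_option autoImplicit false

namespace Pool.CF.A

open Pool.CL Pool.CB Pool.CL.A Pool.CB.A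

/-- the zero-boundary limit -/
theorem fZW : StZW := hZW cEnvC cZbox hLawF hConF BB.wPcW BB.hBasic

theorem fTGh : Pool.CM.StTGh :=
  Pool.CM.hTGh BB.hBasic (Pool.CM.hFBK3 BB.hBasic (Pool.CM.hFBK BB.hBasic BB.hEdge))
    (Pool.CM.hExt3 Pool.CM.hHang) BB.hClu

theorem fDens : Pool.CN.StDens := Pool.CN.hDens Pool.CN.hSW BB.hBn

theorem fLowS : Pool.CM.StLowS := Pool.CM.allS aMom cReg

theorem fBbox (hK2 : StK2) (hT0f : StT0f) : StBbox :=
  bBbox hCC hSin fDens fTGh hK2 hT0f Pool.SW.allSW.1 Pool.SW.allSW.2 cReg cYeq fLowS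

/-- the bulk limit -/
theorem fBW (hK2 : StK2) (hT0f : StT0f) : StBW :=
  hBW cEnvC (fBbox hK2 hT0f) hLawF hConF BB.wPcW bRR

end Pool.CF.A
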