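import Pool.Agent.Helper56.WP.FinalC
import Pool.Agent.Helper56.WP.M_Lim
import Pool.Agent.Helper56.WP.M_Ind
import Pool.Agent.Helper56.WP.M_Loc

/-! # MP_65faa7_pr: the constant `a_w` is larger than `2 d` for `p > 0` -/

set_option autoImplicit false

open MeasureTheory Filter Topology

namespace Pool.CF

open Pool.Agent.Helper56.WP

theorem edge_open (d : ℕ) (p : unitInterval) (e : Sym2 (V d)) :
    perc d p {ω | ω e = true} = unitInterval.toNNReal p := by
  have h := measurePreserving_eval_infinitePi
    (fun _ : Sym2 (V d) => ProbabilityTheory.bernoulliMeasure true false p) e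
  have h2 := h.measure_preimage (s := {true}) (measurableSet_singleton true).nullMeasurableSet
  have h3 : (Function.eval e ⁻¹' {true} : Set (Cfg d)) = {ω | ω e = true} := by
    ext ω
    simp
  unfold perc
  rw [← h3, h2]
  classical
  rw [ProbabilityTheory.bernoulliMeasure_apply p (measurableSet_singleton true)]
  simp

theorem arm_one_pos (d : ℕ) [NeZero d] (p : unitInterval) (hp : 0 < (p : ℝ)) :
    0 < perc d p (arm d 1) := by
  have h1 : perc d p {ω | ω s((0 : V d), Pi.single 0 1) = true} ≤ perc d p (arm d 1) := by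
    apply measure_mono
    intro ω hω
    have hω' : ω s((0 : V d), Pi.single 0 1) = true := hω
    refine ⟨Pi.single 0 1, by simp, ?_⟩
    apply SimpleGraph.Adj.reachable
    refine ⟨?_, ?_, Set.mem_univ _, Set.mem_univ _, hω'⟩
    · intro h
      have := congrFun h 0
      simp at this
    · unfold nn
      have h2 : ∀ i : Fin d, |(0 : V d) i - (Pi.single (0 : Fin d) (1 : ℤ) : V d) i| =
          if i = 0 then 1 else 0 := by
        intro i
        by_cases hi : i = 0
        · subst hi
          simp
        · simp [hi]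
      rw [Finset.sum_congr rfl (fun i _ => h2 i)]
      simp
  refine lt_of_lt_of_le ?_ h1
  rw [edge_open]
  rw [ENNReal.coe_pos]
  rw [← NNReal.coe_pos]
  exact hp

theorem aw_gt (d : ℕ) [NeZero d] (p : unitInterval) (hp : 0 < (p : ℝ)) (hfin : aw d p ≠ ⊤) :
    2 * (d : ℝ) < (aw d p).toReal := by
  have hLim := stLim stInd stLoc
  have h0 : perc d p (arm d 0) = 1 := (hLim d p 0).2.2
  have h1 := arm_one_pos d p hp
  have hd : 0 < d := Nat.pos_of_ne_zero (NeZero.ne d)
  have hsum : 1 + perc d p (arm d 1) ≤ ∑' r : ℕ, perc d p (arm d r) := by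
    rw [← h0]
    have := ENNReal.sum_le_tsum (f := fun r : ℕ => perc d p (arm d r)) (Finset.range 2)
    simpa [Finset.sum_range_succ] using this
  have hne : ∑' r : ℕ, perc d p (arm d r) ≠ ⊤ := by
    intro h
    apply hfin
    unfold aw
    rw [h]
    have : (2 * (d : ENNReal)) ≠ 0 := by
      simp [hd.ne']
    exact ENNReal.mul_top this
  have h2 : 1 < (∑' r : ℕ, perc d p (arm d r)).toReal := by
    have h3 : (1 : ENNReal) < ∑' r : ℕ, perc d p (arm d r) := by
      refine lt_of_lt_of_le ?_ hsum
      exact ENNReal.lt_add_right (by norm_num) h1.ne'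
    have h4 := (ENNReal.toReal_lt_toReal (by norm_num) hne).2 h3
    simpa using h4
  unfold aw
  rw [ENNReal.toReal_mul, ENNReal.toReal_mul]
  simp only [ENNReal.toReal_ofNat, ENNReal.toReal_natCast]
  have hd' : (0 : ℝ) < 2 * (d : ℝ) := by positivity
  nlinarith [mul_lt_mul_of_pos_left h2 hd']

end Pool.CF
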