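import Pool.Agent.Helper65.CF.All

/-! # Project CF (MP_65faa7): final form, without hypotheses -/

set_option autoImplicit false

namespace Pool.CF

/-- the zero-boundary limit -/
theorem zeroLimit : StZW := A.fZW

/-- the bulk limit -/
theorem bulkLimit : StBW := A.fBW Pool.CB.hK2 Pool.CB.hT0f

end Pool.CF
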