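import Pool.Agent.Helper65.CB.StX
import Pool.Agent.Helper56.WF.St
import Pool.Agent.Helper56.WP.FinalB

/-!
# Project CF (MP_65faa7): the final statements for the product measure `perc`
-/

set_option autoImplicit false

open scoped BigOperators ENNReal Topology
open Filter MeasureTheory
open Pool.Agent.Helper56.WP (Cfg perc openG Bx bd)

namespace Pool.CF

/-- number of points of the box which are joined to `x` by open edges inside the box -/
noncomputable def zeroCard {d : ℕ} (n : ℕ) (ω : Cfg d) (x : Fin d → ℤ) : ℕ :=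
  {y : Fin d → ℤ | y ∈ Bx d n ∧ (openG (Bx d n : Set (Fin d → ℤ)) ω).Reachable x y}.ncard

/-- size of the largest zero-boundary cluster -/
noncomputable def zeroMax {d : ℕ} (n : ℕ) (ω : Cfg d) : ℕ := (Bx d n).sup (zeroCard n ω)

/-- number of points of the box which are joined to `x` by open edges of the lattice -/
noncomputable def bulkCard {d : ℕ} (n : ℕ) (ω : Cfg d) (x : Fin d → ℤ) : ℕ :=
  {y : Fin d → ℤ | y ∈ Bx d n ∧ (openG Set.univ ω).Reachable x y}.ncard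

/-- size of the largest bulk cluster -/
noncomputable def bulkMax {d : ℕ} (n : ℕ) (ω : Cfg d) : ℕ := (Bx d n).sup (bulkCard n ω)

open Classical in
/-- open edges of a finite set -/
noncomputable def opF {d : ℕ} (E : Finset (Sym2 (Pool.LE.Zd d))) (ω : Cfg d) :
    Finset (Sym2 (Pool.LE.Zd d)) := E.filter (fun e => ω e = true)

/-- **LawF** law of the open edges of a finite set -/
def StLawF : Prop := ∀ (d : ℕ) (E : Finset (Sym2 (Pool.LE.Zd d))) (p : unitInterval)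
  (A : Finset (Sym2 (Pool.LE.Zd d)) → Prop),
  perc d p {ω | A (opF E ω)} = ENNReal.ofReal (Pool.NL.pr E p A) ∧
    MeasurableSet {ω : Cfg d | A (opF E ω)}

/-- **ConF** connections in the configuration and in finite configurations -/
def StConF : Prop := ∀ (d n : ℕ) (ω : Cfg d), 1 ≤ n →
  (∀ x ∈ Bx d n, zeroCard n ω x = Pool.NL.XB d n (opF (Pool.LE.ES (Pool.NL.Bn d n)) ω) x) ∧
  (∀ x ∈ Bx d n, ∀ M : ℕ,
    Pool.CL.ms (Pool.CB.sB n) (Pool.NL.clu (Pool.CB.Lam d n M)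
      (opF (Pool.LE.ES (Pool.CB.Lam d n M)) ω) x) ≤ bulkCard n ω x) ∧
  ∃ M₀ : ℕ, ∀ M : ℕ, M₀ ≤ M → ∀ x ∈ Bx d n,
    Pool.CL.ms (Pool.CB.sB n) (Pool.NL.clu (Pool.CB.Lam d n M)
      (opF (Pool.LE.ES (Pool.CB.Lam d n M)) ω) x) = bulkCard n ω x

/-- **the zero-boundary limit** -/
def StZW : Prop := ∃ d₀ : ℕ, ∀ d : ℕ, d₀ ≤ d → ∀ p : unitInterval, (p : ℝ) = Pool.WF.pcW d →
  ∃ a : ℝ, 0 < a ∧ TendstoInMeasure (perc d p)
    (fun (n : ℕ) ω => (zeroMax n ω : ℝ) / ((n : ℝ) ^ 4 * Real.log n)) atTop (fun _ => a)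

/-- **the bulk limit** -/
def StBW : Prop := ∃ d₀ : ℕ, ∀ d : ℕ, d₀ ≤ d → ∀ p : unitInterval, (p : ℝ) = Pool.WF.pcW d →
  ∃ a : ℝ, 0 < a ∧ TendstoInMeasure (perc d p)
    (fun (n : ℕ) ω => (bulkMax n ω : ℝ) / ((n : ℝ) ^ 4 * Real.log n)) atTop (fun _ => a)

end Pool.CF
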