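import Pool.Agent.Helper56.WP.M_Cheb
import Pool.Agent.Helper56.WP.M_Geo
import Pool.Agent.Helper56.WP.M_Ind
import Pool.Agent.Helper56.WP.M_Lim
import Pool.Agent.Helper56.WP.M_Loc
import Pool.Agent.Helper56.WP.M_Low
import Pool.Agent.Helper56.WP.M_Mean
import Pool.Agent.Helper56.WP.M_Pairs
import Pool.Agent.Helper56.WP.M_Sym
import Pool.Agent.Helper56.WP.M_Tail
import Pool.Agent.Helper56.WP.M_TwoPt
import Pool.Agent.Helper56.WP.M_Upp
import Pool.Agent.Helper56.WP.FinalC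
import Pool.Agent.Helper56.WF.All
import Pool.Agent.Helper65.CF.ArmPos
import Pool.Agent.Helper65.CF.Fin

/-! # MP_65faa7_pr: the wired limit with a constant larger than `2 d` -/

set_option autoImplicit false

open MeasureTheory Filter Topology
open Pool.Agent.Helper56.WP

namespace Pool.CF

theorem wiredLimit : ∃ d₀ : ℕ, ∀ (d : ℕ) [NeZero d], d₀ ≤ d → ∀ p : unitInterval,
    (p : ℝ) = Pool.WF.pcW d → ∃ a : ℝ, 2 * (d : ℝ) < a ∧ aw d p = ENNReal.ofReal a ∧
      TendstoInMeasure (perc d p) (fun (n : ℕ) ω => (wiredMax n ω : ℝ) / (n : ℝ) ^ (d - 1)) atTop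
        (fun _ => a) ∧
      TendstoInMeasure (perc d p) (fun (n : ℕ) ω => (wiredMax1 n ω : ℝ) / (n : ℝ) ^ (d - 1)) atTop
        (fun _ => a - 2 * d) := by
  obtain ⟨d₀, h⟩ := Pool.WF.allWF
  obtain ⟨d₁, h1⟩ := Pool.CL.A.cEnvC
  refine ⟨max (max d₀ d₁) 2, ?_⟩
  intro d _ hd p hp
  have hd0 : d₀ ≤ d := (le_max_left _ _).trans ((le_max_left _ _).trans hd)
  have hd1 : d₁ ≤ d := (le_max_right _ _).trans ((le_max_left _ _).trans hd)
  have hd2 : 2 ≤ d := (le_max_right _ _).trans hd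
  have hfin : aw d p ≠ ⊤ := h d hd0 p hp
  obtain ⟨C₁, B, c₀, CL, E⟩ := h1 d hd1
  have hpc : Pool.WF.pcW d = Pool.LE.pH d := Pool.BB.wPcW d (by omega) E.half
  have hpos : 0 < (p : ℝ) := by
    rw [hp, hpc]
    exact E.env.p0
  have hInd := stInd
  have hLoc := stLoc
  have hSym := stSym hInd hLoc
  have hLim := stLim hInd hLoc
  have hCheb := stCheb hInd hLoc
  have hGeo := stGeo hLoc
  have hMean := stMean hInd hLoc hSym hGeo
  have hTwo := stTwoPt hInd hLoc hSym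
  have hPairs := stPairs hInd hLoc
  have hTail := stTail
  have hLow := stLow hInd hLoc hSym hLim hCheb hGeo
  have hUpp := stUpp hInd hLoc hMean hLow
  have hFree := stFree hInd hLim hTwo hPairs hTail
  have hFin := stFinal_of hInd hLim hGeo hLow hUpp hFree
  obtain ⟨-, h2, -⟩ := final_of hFin (stFinal1_of hInd hGeo hLow hUpp hFree hFin) d p hd2
  exact ⟨(aw d p).toReal, aw_gt d p hpos hfin, (ENNReal.ofReal_toReal hfin).symm, (h2 hfin).1,
    (h2 hfin).2⟩

end Pool.CF
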